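import Pool.Agent.helper70.FI4E.SpecK
import Pool.Agent.helper12.TY.FinW

set_option autoImplicit false

namespace Pool.Agent.FI4E

open Pool.Agent.helper58.DC Pool.Agent.DI Pool.Agent.GR Pool.Agent.OB Pool.Agent.DR Pool.Agent.FI Pool.Agent.FI3 Pool.Agent.FI4

theorem EDV (hOMX : OMX_stmt) (hEJN : EJN_stmt) : EDV_stmt := by
  intro p M hM G _ _ hG χ hχ D hD hz α hα n hn hαn h3 hsm
  have hpr := hM.pr
  have hact : (hol G).act (SemidirectProduct.inr α) = α := by
    rw [hol_act]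
    exact al_one α
  have hproj : (hol G).proj (SemidirectProduct.inr α) = α := rfl
  have hAB : α ∈ Pool.Agent.BQ.AB (hol G) M χ := by
    refine ⟨SemidirectProduct.inr α, hproj, ?_⟩
    rw [hact]
    exact hα
  have hW : Subgroup.zpowers α ≤ Pool.Agent.BQ.AB (hol G) M χ := by
    rw [Subgroup.zpowers_le]
    exact hAB
  have hinf : Subgroup.zpowers α ⊓ Pool.Agent.BQ.AB (hol G) M χ = Subgroup.zpowers α := inf_eq_left.2 hW
  have hord : orderOf α ∣ n := orderOf_dvd_of_pow_eq_one hαn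
  obtain ⟨hj1, hj2⟩ := hEJN p n hpr h3 hn hsm (orderOf α) hord
  have hAdm : Pool.Agent.MAPW.Adm (hol G) p M χ (Subgroup.zpowers α) (Subgroup.zpowers α) α := by
    refine ⟨?_, inf_le_left, ?_, ⟨0, ?_⟩, Subgroup.mem_zpowers α, le_sup_left, hj1⟩
    · rw [hinf]
    · rw [hinf]
      intro w hw y hy
      exact Subgroup.mul_mem _ (Subgroup.mul_mem _ hw hy) (Subgroup.inv_mem _ hw)
    · rw [hinf, Subgroup.relIndex_self, pow_zero]
  have hmain := (Pool.Agent.TY.FinW_main p hpr M hM.max hM.mem G hG χ hχ D hD 1 hz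
    (G ⋊[MonoidHom.id (MulAut G)] MulAut G) (MulAut G) (hol G) (Subgroup.zpowers α) (Subgroup.zpowers α) α hAdm
    (Subgroup.zpowers α) le_rfl).1 hinf.symm
  have hdade : (∑ᶠ d : ℤ, ∑ᶠ V : {V : Subgroup (MulAut G) // V ⊓ Subgroup.zpowers α = Subgroup.zpowers α},
      altSum (hol G) p M χ d V.1) = dadeSum (hol G) p M χ α := by
    unfold dadeSum
    refine finsum_congr fun d => ?_
    let eqv : {V : Subgroup (MulAut G) // V ⊓ Subgroup.zpowers α = Subgroup.zpowers α} ≃
        {U : Subgroup (MulAut G) // α ∈ U} := Equiv.subtypeEquivRight fun V => by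
      rw [inf_eq_right, Subgroup.zpowers_le]
    exact finsum_eq_of_bijective eqv eqv.bijective fun V => rfl
  rw [hdade, pow_one] at hmain
  have hdvd : (p : ℤ) ∣ dadeSum (hol G) p M χ α := by
    have hpZ : Prime (p : ℤ) := Nat.prime_iff_prime_int.1 hpr
    rcases hpZ.dvd_or_dvd hmain with h | h
    · exact absurd (Int.natCast_dvd_natCast.1 h) hj2
    · exact h
  obtain ⟨m, hm⟩ := hdvd
  have hO := hOMX p M hM G (G ⋊[MonoidHom.id (MulAut G)] MulAut G) (MulAut G) (hol G) hG χ hχ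
    (SemidirectProduct.inr α)
  rw [hproj, hact, hm] at hO
  refine ⟨m, ?_⟩
  rw [← hO]
  push_cast
  ring

end Pool.Agent.FI4E
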