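import Mathlib
import Pool.Agent.helper58.FI4E.Defs

/-!
# Project fi4e (MP_baa4d7_al), block E3: quotient by `O_p(G)` and congruence modulo `p`, with an automorphism

OUTPUT: `DV4E` (statement in `helper58/FI4E/Defs`).

RULES. File `Pool/Agent/<seat>/FI4E/XXX.lean` (directory FI4E) with

  import Pool.Agent.helper70.FI4E.SpecK
  set_option autoImplicit false
  namespace Pool.Agent.FI4E
  open Pool.Agent.helper58.DC Pool.Agent.DI Pool.Agent.GR Pool.Agent.OB Pool.Agent.DR Pool.Agent.FI Pool.Agent.FI3 Pool.Agent.FI4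
  theorem XXX (hYYY : YYY_stmt) ... : XXX_stmt := ...
  end Pool.Agent.FI4E

auxiliary lemmas prefixed `XXX_`, no sorry, no double quotes in the file, no convert / congr!. Any statement of this file, of `helper58/FI4E/{Defs,Spec}`, of `helper70/FI4/SpecK`,
`helper59/FI4/{SpecP4,SpecI}` and of the older specs may be taken as a hypothesis (no circles); proved rows may be imported.

Notation (`helper58/FI4E/Defs`): `am α Q` image of `Q`, `al α g x = g * α x * g⁻¹`, `FxC α C`: all terms fixed, `Stb M χ α`: the block of `χ` is stable, `tS p H S α = ∑ᶠ ψ ∈ S, EE p H (funMap α ψ) ψ`,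
`tL p M χ H α = tS p H (Blk M χ H) α`, `Om`, `Sml p n`: the primes `q ∣ n` satisfy `q < p`, `Qa π α αb`: `αb (π g) = π (α g)`, `hol G` the holomorph. `helper70/FI4/SpecK`: `Qn p R π`, `dn`, `BX`.
-/

set_option autoImplicit false

namespace Pool.Agent.FI4E

open Pool.Agent.helper58.DC Pool.Agent.DI Pool.Agent.GR Pool.Agent.OB Pool.Agent.DR Pool.Agent.FI Pool.Agent.FI3 Pool.Agent.FI4

section

variable {G : Type} [Group G]

/-- The alternating sum for the union `X` of blocks of `G`, chains from `⊥`. -/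
noncomputable def OmX (p : ℕ) (M : Ideal (integralClosure ℤ ℂ)) (X : Set (G → ℂ)) (α : MulAut G) : ℂ :=
  ∑ᶠ g : G, ∑ᶠ C ∈ {C : Finset (Subgroup G) | NCh p ⊤ ⊥ C ∧ FxC (al α g) C},
    (-1 : ℂ) ^ (C.card + 1) * tS p (nrm C) (BX M X (nrm C)) (al α g)

end

/-- **EAU** (short; groups, and IF of DC). (1) `x ∈ am α (nrm C) ↔ α⁻¹ x ∈ nrm C` (`mem_am`), `nrm C` is the infimum of the normalisers, `α⁻¹ x` normalises `Q` iff `x` normalises `am α Q = Q`. (2) `am α R` is a `p`-subgroup normalised by `⊤`, so `am α R ≤ R` (`IsGreatest`), and the orders agree.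
(3) `funMap (al α g) χ = cjF g (funMap α χ)` (`funMap_al`) and `funMap α χ ∈ Irr G` (IF) is a class function, so this is `funMap α χ`. Uses: IF. -/
def EAU_stmt : Prop :=
  ∀ (p : ℕ) [Fact p.Prime] (M : Ideal (integralClosure ℤ ℂ)) (G : Type) [Group G] [Finite G] (α : MulAut G),
    (∀ C : Finset (Subgroup G), FxC α C → am α (nrm C) = nrm C) ∧
    (∀ R : Subgroup G, IsOp p (⊤ : Subgroup G) R → am α R = R) ∧
    ∀ χ ∈ Irr G, ∀ g : G, (Stb M χ (al α g) ↔ Stb M χ α)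

open Classical in
/-- **EQA** (short to medium; only Mathlib). Automorphisms and quotient. `π` is surjective with kernel `R`. (1) `αb (π g) = π (α g)` is well defined because `α R = R` (e.g. by `Function.surjInv`, or `QuotientGroup.congr` and `QuotientGroup.quotientKerEquivOfSurjective`); the inverse comes from `α⁻¹`.
(2) `αb ^ n (π g) = π ((α ^ n) g)`; `al αb (π g) (π x) = π g * π (α x) * (π g)⁻¹`; `π x ∈ am αb Hb ↔ αb⁻¹ (π x) ∈ Hb` and `αb⁻¹ (π x) = π (α⁻¹ x)`; `Subgroup.comap_injective` for `π` surjective; `funMap`: `αb⁻¹ (π x) = π (α⁻¹ x)`. -/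
def EQA_stmt : Prop :=
  ∀ (p : ℕ) (G Gb : Type) [Group G] [Finite G] [Group Gb] [Finite Gb] (R : Subgroup G) (π : G →* Gb),
    Qn p R π → ∀ α : MulAut G, (am α R = R → ∃ αb : MulAut Gb, Qa π α αb) ∧
    ∀ αb : MulAut Gb, Qa π α αb →
      (∀ n : ℕ, α ^ n = 1 → αb ^ n = 1) ∧ (∀ g : G, Qa π (al α g) (al αb (π g))) ∧
      (∀ Hb : Subgroup Gb, (am αb Hb).comap π = am α (Hb.comap π)) ∧
      (∀ Cb : Finset (Subgroup Gb), FxC α (Cb.image (Subgroup.comap π)) ↔ FxC αb Cb) ∧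
      ∀ f : Gb → ℂ, funMap α (fun g => f (π g)) = fun g => funMap αb f (π g)

/-- **ELE** (medium; PORT of `Pool/Agent/helper20/FI4/KLE.lean`; from KIN, KAV, KPR, KSU, KG1, BR0, SFC, EQA). The trace for the quotient. Proof: `H = Hb.comap π`, `am α H = H` (EQA), so `α⁻¹ v ∈ H` is `p`-regular for `v ∈ H` `p`-regular.
`|Hb| tS p Hb (dn π Hb S) αb = ∑ over the p-regular y ∈ Hb of ∑_{f ∈ dn} f (αb⁻¹ y) * f y⁻¹` (the sums are finite and may be exchanged; `EE` is `|H|⁻¹` times the sum over the `p`-regular elements). For `y = π v`, `v ∈ H` `p`-regular, `αb⁻¹ (π v) = π (α⁻¹ v)`, the inner sum is by KIN the sum over the `ψ ∈ S` which are invariant under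
`R` of `ψ (α⁻¹ v) * ψ v⁻¹`, by KAV it is `|R|⁻¹ ∑_{ψ ∈ S} ψ (α⁻¹ v) * ∑_{r ∈ R} ψ (r v⁻¹) = |R|⁻¹ ∑_{r ∈ R} Sf S (α⁻¹ v) (v * r)` (replace `r` by `r⁻¹`). If `v r` is not `p`-regular this is `0` by BR0 (the `p`-part of `α⁻¹ v` is `1`); otherwise `v r = s v s⁻¹`, `s ∈ R` (KPR (3)) and `Sf S (α⁻¹ v) (v r) = Sf S (α⁻¹ v) v` (SFC).
So the inner sum is `|R|⁻¹ c(v) Sf S (α⁻¹ v) v`, `c(v) = #{r ∈ R | v r p-regular} ≥ 1`, and by KSU the whole is `|R|⁻¹ ∑_{v ∈ H p-regular} Sf S (α⁻¹ v) v = |R|⁻¹ |H| tS p H S α`, `|H| = |R| |Hb|` (KG1). Uses: KIN, KAV, KPR, KSU, KG1, BR0, SFC, EQA, B2. -/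
def ELE_stmt : Prop :=
  ∀ (p : ℕ) (M : Ideal (integralClosure ℤ ℂ)), Setup p M → ∀ (G Gb : Type) [Group G] [Finite G]
    [Group Gb] [Finite Gb] (R : Subgroup G) (π : G →* Gb), Qn p R π → ∀ (Hb : Subgroup Gb)
    (S : Set (G → ℂ)), BC M (Hb.comap π) S → ∀ (α : MulAut G) (αb : MulAut Gb), Qa π α αb →
    am αb Hb = Hb → tS p Hb (dn π Hb S) αb = tS p (Hb.comap π) S α

/-- **EUN** (short to medium; PORT of `Pool/Agent/helper61/FI4/KUN.lean`; from UNS, EAU, BCL, IM, B2). Sum over several blocks. Proof: induction on the number of elements of the finite set `X` (`Irr G` is finite). `X = ∅`: `BX = ∅`, all `tS` are `0`, `m = 0`. Otherwise let `χ₀ ∈ X`, `X' = {χ' ∈ X | ¬ Induces M χ' χ₀}` (smaller; again closed).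
For every `N` the set `BX M X N` is the disjoint union of `Blk M χ₀ N` and `BX M X' N` (as in KUN), so `tS p N (BX M X N) β = tL p M χ₀ N β + tS p N (BX M X' N) β` (finite sums; no stability needed). So `OmX p M X α = Om p M χ₀ ⊥ α + OmX p M X' α`. If `Stb M χ₀ α`: hypothesis and induction.
Otherwise `¬ Stb M χ₀ (al α g)` (EAU (3)) and `am (al α g) (nrm C) = nrm C` (EAU (1)), so every `tL p M χ₀ (nrm C) (al α g) = 0` (UNS, last item) and `Om p M χ₀ ⊥ α = 0`. Uses: UNS, EAU, IM, B2. -/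
def EUN_stmt : Prop :=
  ∀ (p : ℕ) (M : Ideal (integralClosure ℤ ℂ)), Setup p M → ∀ (G : Type) [Group G] [Finite G]
    (X : Set (G → ℂ)), X ⊆ Irr G → (∀ χ' ∈ X, ∀ χ'' ∈ Irr G, Induces M χ'' χ' → χ'' ∈ X) →
    ∀ (α : MulAut G) (n : ℤ), (∀ χ' ∈ X, Stb M χ' α → ∃ m : ℤ, Om p M χ' ⊥ α = (n : ℂ) * m) →
    ∃ m : ℤ, OmX p M X α = (n : ℂ) * m

/-- **EJN** (short; only Mathlib). The prime divisors `l` of `m ∣ n` satisfy `l < p`, so `p ∤ m`, and `p ∤ l`, `p ∤ l ^ 2 - 1 = (l - 1) (l + 1)` because `1 ≤ l - 1 < p` and `l + 1 < p` (`l + 1 = p` is impossible: `p - 1` is even and `> 2`, so not prime). `J2 m` is the product of the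
`l ^ (2 (v_l m - 1)) (l ^ 2 - 1)` (`helper12/TY/DefsW`; `Prime.dvd_finset_prod_iff`). -/
def EJN_stmt : Prop :=
  ∀ (p n : ℕ), p.Prime → 3 < p → 0 < n → Sml p n → ∀ m : ℕ, m ∣ n →
    ¬ p ∣ m ∧ ¬ p ∣ Pool.Agent.MAPW.J2 m

/-- **EDV** (short to medium; from OMX, EJN; the theorem `Pool.Agent.TY.FinW_main` of `Pool/Agent/helper12/TY/FinW.lean` is to be imported). The congruence modulo `p` for one block. Proof: let `X = hol G`, `A = MulAut G`, `e = SemidirectProduct.inr α`: `X.proj e = α`, `X.act e = al α 1 = α` (`hol_act`, `al_one`).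
FinW_main with `c = 1`, `W = C = U = Subgroup.zpowers α`, `s = α`; `Adm`: `α ∈ AB X M χ` (`Stb`), so `W ≤ AB`; `ge`: `W ⊓ AI ≤ W`; `nor`: `W` is abelian; `idx`: `relIndex = 1 = p ^ 0`; `gen`: `le_sup_left`; `ord`: EJN for `orderOf α ∣ n`. First item, `C = W ⊓ AB`: `p` divides `J2 (orderOf α)` times
the sum over `d` and over the `V` with `V ⊓ W = W` of `altSum`; `p ∤ J2` (EJN), and `V ⊓ W = W ↔ α ∈ V`, so the sum is `dadeSum X p M χ α` (`Equiv.subtypeEquivRight`). OMX. Uses: OMX, EJN. -/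
def EDV_stmt : Prop :=
  ∀ (p : ℕ) (M : Ideal (integralClosure ℤ ℂ)), Setup p M → ∀ (G : Type) [Group G] [Finite G],
    IsOp p (⊤ : Subgroup G) ⊥ → ∀ χ ∈ Irr G, ∀ D : Subgroup G, Pool.Agent.MAP.DefectGroup p M χ D →
    Pool.Agent.MAPW.CentreOut p 1 D → ∀ α : MulAut G, Stb M χ α → ∀ n : ℕ, 0 < n → α ^ n = 1 → 3 < p →
    Sml p n → ∃ m : ℤ, Om p M χ ⊥ α = (p : ℂ) * (Nat.card G : ℂ) * m

/-- **EOQ** (medium; from KG1, KCH, ELE, EQA, EAU, KIN, KBL, BCL; compare `Pool/Agent/helper48/FI4/KQ.lean`). The sum for the quotient. Proof: fix `g`, `β = al α g`, `βb = al αb (π g)`, `Qa π β βb` (EQA). By KCH the map `Cb ↦ Cb.image (comap π)` is a bijection from the `Cb` with `NCh p ⊤ ⊥ Cb`, `FxC βb Cb` to the `C` with `NCh p ⊤ R C`, `FxC β C`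
(EQA), it preserves `card`, and `nrm C = (nrm Cb).comap π`. `am βb (nrm Cb) = nrm Cb` (EAU (1)). With `S = Blk M χ (nrm C)` (`BC` by BCL) `dn π (nrm Cb) S = BX M X (nrm Cb)` (KIN: `f ∘ π ∈ IrrOn ((nrm Cb).comap π)`; KBL (2)), so by ELE `tL p M χ (nrm C) β = tS p (nrm Cb) (BX M X (nrm Cb)) βb`. So the inner sum for `g` is the inner sum
of `OmX` for `π g`, and `∑ g : G, F (π g) = |R| ∑ gb, F gb` (the fibres of `π` have `|R|` elements). Uses: KG1, KCH, ELE, EQA, EAU, KIN, KBL, BCL. -/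
def EOQ_stmt : Prop :=
  ∀ (p : ℕ) (M : Ideal (integralClosure ℤ ℂ)), Setup p M → ∀ (G Gb : Type) [Group G] [Finite G]
    [Group Gb] [Finite Gb] (R : Subgroup G) (π : G →* Gb), Qn p R π → ∀ (χ : G → ℂ) (α : MulAut G)
    (αb : MulAut Gb), Qa π α αb →
    Om p M χ R α = (Nat.card R : ℂ) * OmX p M {χ' : Gb → ℂ | χ' ∈ Irr Gb ∧ Induces M (fun g => χ' (π g)) χ} αb

/-! **DV4E** (statement in `helper58/FI4E/Defs`; short to medium; from EOQ, EUN, EDV, EQA, EAU, KDG, KG1, KBL, IM). Proof: `R ≤ D`, so `R` is abelian; `R` is normal (`IsOp`). `Gb = G ⧸ R`, `π = QuotientGroup.mk' R`, `Qn p R π`. `am α R = R` (EAU (2)), `αb` from EQA (1), `αb ^ n = 1`. `X = {χ' ∈ Irr Gb | Induces M (χ' ∘ π) χ}` (closed: KBL (1), IM).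
EUN with `n = p * |Gb|`: for `χ' ∈ X` with `Stb M χ' αb` take `D'` from KDG and apply EDV (`IsOp p ⊤ ⊥` for `Gb` by KG1). EOQ and `|R| |Gb| = |G|` (KG1). -/

end Pool.Agent.FI4E
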