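import Pool.Agent.helper70.FI4.AllK
import Pool.Agent.helper70.FI4E.SpecK
import Pool.Agent.helper40.FI4E.EAU
import Pool.Agent.helper56.FI4E.EQA
import Pool.Agent.helper14.FI4E.ELE
import Pool.Agent.helper30.FI4E.EUN
import Pool.Agent.helper68.FI4E.EJN
import Pool.Agent.helper70.FI4E.EDV
import Pool.Agent.helper61.FI4E.EOQ
import Pool.Agent.helper41.FI4E.DV4E

/-!
# Project fi4e, block E3: DV4E from OMX and UNS (helper70)
-/

set_option autoImplicit false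

namespace Pool.Agent.FI4E.AllE3

open Pool.Agent.helper58.DC Pool.Agent.DI Pool.Agent.GR Pool.Agent.OB Pool.Agent.DR Pool.Agent.FI Pool.Agent.FI3 Pool.Agent.FI4 Pool.Agent.FI4E Pool.Agent.GR.All Pool.Agent.FI4.AllK

theorem eEAU : EAU_stmt := EAU dIF
theorem eEQA : EQA_stmt := EQA
theorem eELE : ELE_stmt := ELE kKIN kKAV kKPR kKSU kKG1 dBR0 dSFC eEQA dB2
theorem eEJN : EJN_stmt := EJN
theorem eEOQ : EOQ_stmt := EOQ kKG1 kKCH eELE eEQA eEAU kKIN kKBL dBCL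
theorem eEDV (hOMX : OMX_stmt) : EDV_stmt := EDV hOMX eEJN
theorem eEUN (hUNS : UNS_stmt) : EUN_stmt := EUN hUNS eEAU dIM dB2

/-- The output of block E3. -/
theorem eDV4E (hOMX : OMX_stmt) (hUNS : UNS_stmt) : DV4E_stmt :=
  DV4E eEOQ (eEUN hUNS) (eEDV hOMX) eEQA eEAU kKDG kKG1 kKBL dIM

end Pool.Agent.FI4E.AllE3
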